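import Mathlib
import Pool.Agent.U180.DP.Stm
import Pool.Agent.H442R2.EHI.PntErr

/-! Project DP package PI: primes in intervals of length at least `x / (log x)^A`. -/

set_option autoImplicit false

open Finset Filter Topology

namespace Pool.Agent.U638.DP

open Pool.Agent.U180.DP Pool.Agent.H442R2.EHI

theorem card_eq (x z : ℝ) (hx : 6 ≤ x) (hz : 0 ≤ z) (hz2 : z ≤ x / 2) :
    (((Finset.range (⌊x⌋₊ + 1)).filter fun p : ℕ => p.Prime ∧ x - z < p).card : ℝ) =
      (((Icc 1 ⌊x⌋₊).filter (fun p : ℕ => p.Prime)).card : ℝ) -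
        (((Icc 1 ⌊x - z⌋₊).filter (fun p : ℕ => p.Prime)).card : ℝ) := by
  have h1 : ((Icc 1 ⌊x - z⌋₊).filter (fun p : ℕ => p.Prime)) ⊆
      ((Icc 1 ⌊x⌋₊).filter (fun p : ℕ => p.Prime)) := by
    apply filter_subset_filter
    apply Icc_subset_Icc_right
    exact Nat.floor_le_floor (by linarith)
  have h2 : ((Finset.range (⌊x⌋₊ + 1)).filter fun p : ℕ => p.Prime ∧ x - z < p) =
      ((Icc 1 ⌊x⌋₊).filter (fun p : ℕ => p.Prime)) \
        ((Icc 1 ⌊x - z⌋₊).filter (fun p : ℕ => p.Prime)) := by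
    ext p
    simp only [Finset.mem_filter, Finset.mem_range, Finset.mem_sdiff, Finset.mem_Icc]
    have h3 : x - z < p ↔ ⌊x - z⌋₊ < p := (Nat.floor_lt (by linarith)).symm
    rw [h3]
    constructor
    · rintro ⟨a, b, c⟩
      exact ⟨⟨⟨b.one_lt.le, by omega⟩, b⟩, fun h => by omega⟩
    · rintro ⟨⟨⟨a, b⟩, c⟩, d⟩
      refine ⟨by omega, c, ?_⟩
      by_contra hh
      exact d ⟨⟨a, by omega⟩, c⟩
  rw [h2, cast_card_sdiff h1]

theorem lis_sub (M N : ℕ) (hM : 1 ≤ M) (h : M ≤ N) :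
    lis N - lis M = ∑ n ∈ Ioc M N, 1 / Real.log n := by
  have e : ∀ y : ℕ, Icc 2 y = Ioc 1 y := fun y => by ext n; simp only [mem_Icc, mem_Ioc]; omega
  unfold lis
  rw [e, e, ← Finset.sum_Ioc_consecutive (fun n : ℕ => 1 / Real.log n) hM h]
  ring

theorem sum_lower (M N : ℕ) (h : M ≤ N) (L : ℝ) (hL : ∀ n ∈ Ioc M N, 0 < Real.log n ∧ Real.log n ≤ L) :
    ((N : ℝ) - M) * (1 / L) ≤ ∑ n ∈ Ioc M N, 1 / Real.log n := by
  have : ((N : ℝ) - M) * (1 / L) = ∑ _n ∈ Ioc M N, 1 / L := by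
    simp [Nat.card_Ioc, Nat.cast_sub h]
  rw [this]
  exact sum_le_sum fun n hn => one_div_le_one_div_of_le (hL n hn).1 (hL n hn).2

theorem sum_upper (M N : ℕ) (h : M ≤ N) (L : ℝ) (hL0 : 0 < L) (hL : ∀ n ∈ Ioc M N, L ≤ Real.log n) :
    ∑ n ∈ Ioc M N, 1 / Real.log n ≤ ((N : ℝ) - M) * (1 / L) := by
  have : ((N : ℝ) - M) * (1 / L) = ∑ _n ∈ Ioc M N, 1 / L := by
    simp [Nat.card_Ioc, Nat.cast_sub h]
  rw [this]
  exact sum_le_sum fun n hn => one_div_le_one_div_of_le hL0 (hL n hn)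

theorem t_PI : S_PI := by
  intro A ε hA hε
  obtain ⟨U, hU⟩ : ∃ U : ℕ, A + 2 ≤ U := exists_nat_ge _
  obtain ⟨C, hC⟩ := pnt_err U
  have ev1 : ∀ᶠ x : ℝ in atTop, Real.log x ^ A ≤ (ε / 8) * x := by
    have := (isLittleO_log_rpow_rpow_atTop A (show (0 : ℝ) < 1 by norm_num)).bound
      (c := ε / 8) (by positivity)
    filter_upwards [this, eventually_ge_atTop (1 : ℝ)] with x hx hx1
    have hl : 0 ≤ Real.log x := Real.log_nonneg hx1
    rw [Real.norm_of_nonneg (by positivity), Real.norm_of_nonneg (by positivity),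
      Real.rpow_one] at hx
    exact hx
  have ev2 : ∀ᶠ x : ℝ in atTop, (4 + 8 / ε + 4 * |C| * 2 ^ U / ε) ≤ Real.log x :=
    Real.tendsto_log_atTop.eventually_ge_atTop _
  obtain ⟨X₀, h⟩ := eventually_atTop.1 (ev1.and (ev2.and (eventually_ge_atTop (6 : ℝ))))
  refine ⟨X₀, fun x z hx hz1 hz2 => ?_⟩
  obtain ⟨g1, g2, g3⟩ := h x hx
  set L := Real.log x with hL
  have p1 : 0 ≤ 8 / ε := by positivity
  have p2 : 0 ≤ 4 * |C| * 2 ^ U / ε := by positivity
  have hL4 : 4 ≤ L := by linarith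
  have hL8 : 4 + 8 / ε ≤ L := by linarith
  have hLC : 4 * |C| * 2 ^ U / ε ≤ L := by linarith
  have hL0 : 0 < L := by linarith
  have hx0 : 0 < x := by linarith
  have hLA : 0 < L ^ A := Real.rpow_pos_of_pos hL0 A
  have hz8 : 8 / ε ≤ z := by
    refine le_trans ?_ hz1
    rw [div_le_div_iff₀ hε hLA]
    nlinarith
  have hz0 : 0 < z := lt_of_lt_of_le (by positivity) hz8
  rw [card_eq x z g3 hz0.le hz2]
  set N := ⌊x⌋₊ with hN
  set M := ⌊x - z⌋₊ with hM
  have hN1 : (N : ℝ) ≤ x := Nat.floor_le hx0.le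
  have hN2 : x < N + 1 := Nat.lt_floor_add_one x
  have hM1 : (M : ℝ) ≤ x - z := Nat.floor_le (by linarith)
  have hM2 : x - z < M + 1 := Nat.lt_floor_add_one _
  have hM3 : 2 ≤ M := by
    have : (1 : ℝ) < M := by linarith
    have : 1 < M := by exact_mod_cast this
    omega
  have hMN : M ≤ N := Nat.floor_le_floor (by linarith)
  have hlog2 : Real.log 2 < 0.7 := lt_trans Real.log_two_lt_d9 (by norm_num)
  have hlog2p : 0 < Real.log 2 := Real.log_pos (by norm_num)
  have hlx2 : Real.log (x / 2) = L - Real.log 2 := Real.log_div hx0.ne' (by norm_num)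
  have hlx4 : Real.log (x / 4) = L - 2 * Real.log 2 := by
    rw [Real.log_div hx0.ne' (by norm_num), show (4 : ℝ) = 2 ^ 2 by norm_num, Real.log_pow, hL]
    push_cast
    ring
  -- logs of `N` and `M`
  have hlN : L / 2 ≤ Real.log N := by
    have : Real.log (x / 2) ≤ Real.log N := Real.log_le_log (by linarith) (by linarith)
    linarith
  have hlM : L / 2 ≤ Real.log M := by
    have : Real.log (x / 4) ≤ Real.log M := Real.log_le_log (by linarith) (by linarith)
    linarith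
  -- the error terms
  have hxU : x / L ^ U ≤ z / L ^ 2 := by
    have a1 : L ^ A * L ^ 2 ≤ L ^ U := by
      have : L ^ (A + 2) ≤ L ^ (U : ℝ) := Real.rpow_le_rpow_of_exponent_le (by linarith) hU
      rw [Real.rpow_natCast, Real.rpow_add hL0] at this
      norm_num at this
      exact this
    calc x / L ^ U ≤ x / (L ^ A * L ^ 2) := by gcongr
      _ = x / L ^ A / L ^ 2 := by rw [div_div]
      _ ≤ z / L ^ 2 := by gcongr
  have err : ∀ y : ℕ, 2 ≤ y → (y : ℝ) ≤ x → L / 2 ≤ Real.log y →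
      |(((Icc 1 y).filter (fun p : ℕ => p.Prime)).card : ℝ) - lis y| ≤ ε / 4 * (z / L) := by
    intro y hy hyx hyL
    refine (hC y hy).trans ?_
    have b1 : (0 : ℝ) < (L / 2) ^ U := by positivity
    have b2 : (L / 2) ^ U ≤ Real.log y ^ U := by gcongr
    have b3 : (0 : ℝ) < Real.log y ^ U := lt_of_lt_of_le b1 b2
    have b4 : C * y ≤ |C| * x := by
      calc C * y ≤ |C| * y := by gcongr; exact le_abs_self C
        _ ≤ |C| * x := by gcongr
    calc C * y / Real.log y ^ U ≤ |C| * x / Real.log y ^ U := by gcongr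
      _ ≤ |C| * x / (L / 2) ^ U := by gcongr
      _ = |C| * 2 ^ U * (x / L ^ U) := by rw [div_pow]; field_simp
      _ ≤ |C| * 2 ^ U * (z / L ^ 2) := by gcongr
      _ ≤ ε / 4 * (z / L) := by
        rw [div_le_iff₀ hε] at hLC
        have : ε / 4 * (z / L) - |C| * 2 ^ U * (z / L ^ 2) =
            (z / L ^ 2) * (L * ε - 4 * |C| * 2 ^ U) / 4 := by field_simp
        have b5 : 0 ≤ (z / L ^ 2) * (L * ε - 4 * |C| * 2 ^ U) / 4 := by
          apply div_nonneg _ (by norm_num)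
          exact mul_nonneg (by positivity) (by linarith)
        linarith
  have eN := abs_le.1 (err N (by omega) hN1 hlN)
  have eM := abs_le.1 (err M hM3 (by linarith) hlM)
  -- the main term
  have hsub := lis_sub M N (by omega) hMN
  have lo := sum_lower M N hMN L (fun n hn => by
    rw [mem_Ioc] at hn
    have n1 : (1 : ℝ) < n := by exact_mod_cast (by omega : 1 < n)
    have n2 : (n : ℝ) ≤ x := le_trans (by exact_mod_cast hn.2) hN1
    exact ⟨Real.log_pos n1, Real.log_le_log (by linarith) n2⟩)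
  have hL1 : 0 < L - 1 := by linarith
  have up := sum_upper M N hMN (L - 1) hL1 (fun n hn => by
    rw [mem_Ioc] at hn
    have n1 : (M : ℝ) + 1 ≤ n := by exact_mod_cast hn.1
    have n2 : Real.log (x / 2) ≤ Real.log n := Real.log_le_log (by linarith) (by linarith)
    linarith)
  rw [← hsub] at lo up
  have lo2 : z / L - ε / 4 * (z / L) ≤ ((N : ℝ) - M) * (1 / L) := by
    have c1 : z - 1 ≤ (N : ℝ) - M := by linarith
    have c2 : 1 ≤ ε / 4 * z := by
      rw [div_le_iff₀ hε] at hz8; linarith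
    calc z / L - ε / 4 * (z / L) = (z - ε / 4 * z) * (1 / L) := by ring
      _ ≤ ((N : ℝ) - M) * (1 / L) := by
        apply mul_le_mul_of_nonneg_right _ (by positivity); linarith
  have up2 : ((N : ℝ) - M) * (1 / (L - 1)) ≤ z / L + ε / 2 * (z / L) := by
    have c1 : (N : ℝ) - M ≤ z + 1 := by linarith
    have c2 : 8 ≤ ε * z := by rw [div_le_iff₀ hε] at hz8; linarith
    have c3 : 8 + 4 * ε ≤ ε * L := by
      have e1 : ε * (4 + 8 / ε) = 4 * ε + 8 := by field_simp
      have e2 : ε * (4 + 8 / ε) ≤ ε * L := mul_le_mul_of_nonneg_left hL8 hε.le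
      linarith
    rw [mul_one_div, div_le_iff₀ hL1]
    have c4 : (z / L + ε / 2 * (z / L)) * (L - 1) = z * (1 + ε / 2) * (L - 1) / L := by ring
    rw [c4, le_div_iff₀ hL0]
    -- (N - M) L ≤ z (1 + ε/2) (L - 1)
    have c5 : ((N : ℝ) - M) * L ≤ (z + 1) * L := mul_le_mul_of_nonneg_right c1 hL0.le
    refine c5.trans ?_
    have d1 : z * 4 ≤ z * (ε * (L - 1)) := mul_le_mul_of_nonneg_left (by linarith) hz0.le
    have d2 : 8 * (L - 1) ≤ (ε * z) * (L - 1) := mul_le_mul_of_nonneg_right c2 hL1.le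
    have d3 : z * (1 + ε / 2) * (L - 1) = z * L - z + (z * (ε * (L - 1))) / 4 +
        ((ε * z) * (L - 1)) / 4 := by ring
    rw [d3]
    linarith
  have fin1 : ε / 4 * (z / L) = ε * (z / L) / 4 := by ring
  have fin2 : ε / 2 * (z / L) = ε * (z / L) / 2 := by ring
  have pos : 0 ≤ ε * (z / L) := by positivity
  rw [abs_le]
  constructor
  · linarith [eN.1, eM.2]
  · linarith [eN.2, eM.1]

end Pool.Agent.U638.DP
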